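import Mathlib
import Pool.Agent.R161.Az.Fin
import Pool.Agent.R161.Az.TOD
import Pool.Agent.R784.Az.MC
import Pool.Agent.R168.Az.Half
import Pool.Agent.R161.Az.T1
import Pool.Agent.R102.Az.PF
import Pool.Agent.R102.Az.Sym
import Pool.Agent.R102.Az.VDet
import Pool.Agent.R102.Az.Meix
import Pool.Agent.R258.Az.Ker
import Pool.Agent.R152.Az.Cmp

/-!
The growth rates of off-diagonally symmetric and nearly off-diagonally symmetric domino tilings of
the Aztec diamond are both `√2`.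
-/

set_option autoImplicit false

namespace Pool.Agent.Results.MP_315d97_co.GrowthRates

open Filter Topology

/-- A unit lattice square `[a, a+1] × [b, b+1]` is named by its lower left corner `s = (a, b)`.
It belongs to the Aztec diamond `AD m` iff it lies in `{(x, y) : |x| + |y| ≤ m + 1}`. -/
def InAD (m : ℕ) (s : ℤ × ℤ) : Prop :=
  ∀ x y : ℝ, (s.1 : ℝ) ≤ x → x ≤ s.1 + 1 → (s.2 : ℝ) ≤ y → y ≤ s.2 + 1 → |x| + |y| ≤ m + 1

/-- Two unit squares that share an edge. -/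
def Adj (s t : ℤ × ℤ) : Prop := |s.1 - t.1| + |s.2 - t.2| = 1

/-- A domino tiling of `AD m`, given by its partner function: every unit square of `AD m` is sent to
the other square of its domino (squares outside of `AD m` are fixed). -/
def IsTiling (m : ℕ) (f : ℤ × ℤ → ℤ × ℤ) : Prop :=
  (∀ s, InAD m s → InAD m (f s) ∧ Adj s (f s) ∧ f (f s) = s) ∧ ∀ s, ¬ InAD m s → f s = s

/-- Reflection in the vertical diagonal `x = 0`, on unit squares. -/
def refl (s : ℤ × ℤ) : ℤ × ℤ := (-1 - s.1, s.2)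

/-- The tiling is invariant under the reflection in the vertical diagonal. -/
def IsSym (f : ℤ × ℤ → ℤ × ℤ) : Prop := ∀ s, f (refl s) = refl (f s)

/-- Black squares of the checkerboard colouring in which the squares `(x, y)`, `x, y ≥ 0`,
`x + y = m - 1`, along the upper right boundary of `AD m` are black. -/
def Black (m : ℕ) (s : ℤ × ℤ) : Prop := Even (s.1 + s.2 - ((m : ℤ) - 1))

/-- The four unit squares of the `2 × 2` block with lower left square `c`. -/
def block (c : ℤ × ℤ) : Finset (ℤ × ℤ) :=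
  {(c.1, c.2), (c.1 + 1, c.2), (c.1, c.2 + 1), (c.1 + 1, c.2 + 1)}

/-- The `2 × 2` block at `c` is a cell of `AD m`: it lies in `AD m` and its bottom-left and
top-right squares are black. -/
def IsCell (m : ℕ) (c : ℤ × ℤ) : Prop :=
  (∀ s ∈ block c, InAD m s) ∧ Black m c ∧ Black m (c.1 + 1, c.2 + 1)

/-- The cells lying along the vertical diagonal `x = 0`. -/
def IsDiagCell (m : ℕ) (c : ℤ × ℤ) : Prop := IsCell m c ∧ c.1 = -1

/-- The value of a cell: the number of whole dominoes it contains, minus one. -/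
def value (f : ℤ × ℤ → ℤ × ℤ) (c : ℤ × ℤ) : ℤ :=
  ((((block c).filter (fun s => f s ∈ block c)).card / 2 : ℕ) : ℤ) - 1

/-- Off-diagonally symmetric tilings of `AD m`: symmetric, all diagonal cells have value `0`. -/
def OffSym (m : ℕ) : Set (ℤ × ℤ → ℤ × ℤ) :=
  {f | IsTiling m f ∧ IsSym f ∧ ∀ c, IsDiagCell m c → value f c = 0}

/-- Nearly off-diagonally symmetric tilings of `AD m`: symmetric, exactly one diagonal cell has a
nonzero value (the values are `-1`, `0`, `1`). -/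
def NearlyOffSym (m : ℕ) : Set (ℤ × ℤ → ℤ × ℤ) :=
  {f | IsTiling m f ∧ IsSym f ∧ ∃! c, IsDiagCell m c ∧ value f c ≠ 0}

lemma diag_iff (m : ℕ) (c : ℤ × ℤ) :
    IsDiagCell m c ↔ ∃ k : ℕ, k < m ∧ c = (-1, 2 * (k : ℤ) - m) := by
  have key : ∀ s : ℤ × ℤ, InAD m s ↔ max s.1 (-1 - s.1) + max s.2 (-1 - s.2) + 1 ≤ (m : ℤ) :=
    fun s => R372.Az.inAD_iff m s
  obtain ⟨a, b⟩ := c
  unfold IsDiagCell IsCell Black
  simp only [block, Finset.mem_insert, Finset.mem_singleton]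
  constructor
  · rintro ⟨⟨h1, h2, h3⟩, h4⟩
    subst h4
    have i1 := (key _).1 (h1 (-1, b) (by simp))
    have i2 := (key _).1 (h1 (-1, b + 1) (by simp))
    simp only at i1 i2 h2
    obtain ⟨r, hr⟩ := h2
    refine ⟨((b + m) / 2).toNat, ?_, ?_⟩
    · omega
    · simp only [Prod.mk.injEq, true_and]
      omega
  · rintro ⟨k, hk, hc⟩
    simp only [Prod.mk.injEq] at hc
    obtain ⟨rfl, rfl⟩ := hc
    refine ⟨⟨?_, ?_, ?_⟩, rfl⟩
    · intro s hs
      rw [key]
      rcases hs with rfl | rfl | rfl | rfl <;> simp only <;> omega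
    · exact ⟨k - m, by ring⟩
    · exact ⟨k - m + 1, by ring⟩

lemma value_eq (m : ℕ) (f : ℤ × ℤ → ℤ × ℤ) (k : ℕ) :
    value f (-1, 2 * (k : ℤ) - m) = R161.Az.cellVal m f k := by
  unfold value R161.Az.cellVal
  have : block (-1, 2 * (k : ℤ) - m) = R161.Az.cell m k := by
    unfold block R161.Az.cell
    norm_num
  rw [this]

lemma offSym_eq (n : ℕ) : OffSym (2 * n) = R161.Az.TO n := by
  ext f
  unfold OffSym R161.Az.TO
  simp only [Set.mem_ofPred_eq]
  refine and_congr Iff.rfl (and_congr Iff.rfl ?_)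
  constructor
  · intro h k hk
    rw [← value_eq]
    exact h _ ((diag_iff _ _).2 ⟨k, hk, rfl⟩)
  · intro h c hc
    obtain ⟨k, hk, rfl⟩ := (diag_iff _ _).1 hc
    rw [value_eq]
    exact h k hk

lemma nearlyOffSym_eq (n : ℕ) : NearlyOffSym (2 * n + 1) = R161.Az.TD n := by
  ext f
  unfold NearlyOffSym R161.Az.TD
  simp only [Set.mem_ofPred_eq]
  refine and_congr Iff.rfl (and_congr Iff.rfl ?_)
  constructor
  · rintro ⟨c, ⟨hc, hv⟩, hu⟩
    obtain ⟨k, hk, rfl⟩ := (diag_iff _ _).1 hc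
    refine ⟨k, ⟨hk, by rw [← value_eq]; exact hv⟩, ?_⟩
    rintro k' ⟨hk', hv'⟩
    have := hu _ ⟨(diag_iff _ _).2 ⟨k', hk', rfl⟩, by
      rw [value_eq]; exact hv'⟩
    simp only [Prod.mk.injEq] at this
    omega
  · rintro ⟨k, ⟨hk, hv⟩, hu⟩
    refine ⟨_, ⟨(diag_iff _ _).2 ⟨k, hk, rfl⟩, by rw [value_eq]; exact hv⟩, ?_⟩
    rintro c ⟨hc, hv'⟩
    obtain ⟨k', hk', rfl⟩ := (diag_iff _ _).1 hc
    rw [hu k' ⟨hk', by rw [← value_eq]; exact hv'⟩]

/-- Both growth rates are `√2`: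
`|O(2n, [2n])|^(2/(2n)^2) → √2` and `|D(2n-1)|^(2/(2n-1)^2) → √2`. -/
theorem result :
    Tendsto (fun n : ℕ => ((OffSym (2 * n)).ncard : ℝ) ^ ((2 : ℝ) / (2 * n) ^ 2)) atTop (𝓝 √2) ∧
    Tendsto (fun n : ℕ => ((NearlyOffSym (2 * n - 1)).ncard : ℝ) ^ ((2 : ℝ) / (2 * n - 1) ^ 2))
      atTop (𝓝 √2) := by
  have hmc := R161.Az.s_mc
  have hhalf := R168.Az.s_half hmc
  have hTO := R161.AzB.s_TO (R372.Az.s_TO1 hmc) hhalf
  have hTD := R161.AzB.s_TD (R372.Az.s_TD1 hmc) hhalf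
  have hO := R161.AzB.s_boundO R161.Az.s_PF R161.Az.s_sym R161.Az.s_K hTO R161.Az.s_V
    R152.Az.s_cmp R161.Az.s_M
  have hD := R161.AzB.s_boundD R161.Az.s_PF R161.Az.s_sym R161.Az.s_K hTO R161.Az.s_V
    R152.Az.s_cmp R161.Az.s_M R161.Az.s_PFD R161.Az.s_symD R161.Az.s_F hTD R161.Az.s_VD
  constructor
  · have h := (R152.Az.s_lim (fun n => ((R161.Az.TO n).ncard : ℝ)) hO).1
    simpa only [offSym_eq] using h
  · have h := (R152.Az.s_lim (fun n => ((R161.Az.TD n).ncard : ℝ)) hD).2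
    rw [← tendsto_add_atTop_iff_nat 1]
    refine h.congr fun n => ?_
    have e1 : 2 * (n + 1) - 1 = 2 * n + 1 := by omega
    rw [e1, nearlyOffSym_eq]
    congr 2
    push_cast
    ring

end Pool.Agent.Results.MP_315d97_co.GrowthRates
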